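import Pool.Agent.H.MP_e5ff55_co.B
import Pool.Agent.H.MP_248d64_co.A

namespace Pool.Agent.H.MP_d900bd_co

open Finset Pool.Agent.H.MP_e5ff55_co

theorem gibbs (a b s0 s1 : ℝ) (ha : 0 ≤ a) (hb : 0 ≤ b) (h0 : 0 < s0) (h1 : 0 < s1) :
    a * Real.log s1 + b * Real.log s0 ≤ (a + b) * Real.log 2 - (a + b) * Real.log (a + b)
      + a * Real.log a + b * Real.log b + (a + b) * Real.log ((s0 + s1) / 2) := by
  rcases (add_nonneg ha hb).eq_or_lt with h | h
  · have e1 : a = 0 := by linarith
    have e2 : b = 0 := by linarith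
    simp [e1, e2]
  have hs : 0 < s0 + s1 := by linarith
  have k1 := xlog1 a ((a + b) * s1 / (s0 + s1)) ha (by positivity)
  have k2 := xlog1 b ((a + b) * s0 / (s0 + s1)) hb (by positivity)
  rw [Real.log_div (by positivity) hs.ne', Real.log_mul h.ne' h1.ne'] at k1
  rw [Real.log_div (by positivity) hs.ne', Real.log_mul h.ne' h0.ne'] at k2
  rw [Real.log_div hs.ne' (by norm_num)]
  have : (a + b) * s1 / (s0 + s1) + (a + b) * s0 / (s0 + s1) = a + b := by field_simp; ring
  linarith

variable {α : Type} [DecidableEq α]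

theorem transport2 (ε : ℝ) (h0 : 0 ≤ ε) (h1 : ε ≤ 1) (E : Finset α) :
    ∀ A : Finset (Finset α), (∀ x ∈ A, x ⊆ E) →
    ∃ r : Finset α → α → ℝ, (∀ x e, 0 ≤ r x e ∧ r x e ≤ 1) ∧
      (∀ G : Finset α → ℝ, (∀ z, 0 < G z) → ∑ x ∈ A, ∑ z ∈ E.powerset,
        (∏ e ∈ E, (if (e ∈ x ↔ e ∈ z) then 1 - ε * r x e else ε * r x e)) * Real.log (G z)
        ≤ (1 - ε) * (#A * (#E * Real.log 2) - #A * Real.log #A)
          + #A * Real.log ((∑ z ∈ E.powerset, G z) / 2 ^ #E)) ∧
      ∑ x ∈ A, ∑ e ∈ E, r x e ^ 2 ≤ 4 * (#A * (#E * Real.log 2) - #A * Real.log #A) := by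
  induction E using Finset.induction_on with
  | empty =>
    intro A hA
    have : #A ≤ 1 := card_le_one.2 fun x hx y hy => by
      rw [subset_empty.1 (hA x hx), subset_empty.1 (hA y hy)]
    refine ⟨fun _ _ => 0, by simp, fun G _ => ?_, ?_⟩
    · interval_cases h : #A <;> simp [h]
    · interval_cases h : #A <;> simp
  | insert a E ha ih =>
    intro A hA
    obtain ⟨r1, p1, q1, s1⟩ := ih (A.memberSubfamily a) (by
      intro x hx
      obtain ⟨h1, h2⟩ := mem_memberSubfamily.1 hx
      intro e he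
      exact (mem_insert.1 (hA _ h1 (mem_insert_of_mem he))).resolve_left (fun h => h2 (h ▸ he)))
    obtain ⟨r0, p0, q0, s0⟩ := ih (A.nonMemberSubfamily a) (by
      intro x hx
      obtain ⟨h1, h2⟩ := mem_nonMemberSubfamily.1 hx
      intro e he
      exact (mem_insert.1 (hA _ h1 he)).resolve_left (fun h => h2 (h ▸ he)))
    have hc : (#(A.memberSubfamily a) : ℝ) + #(A.nonMemberSubfamily a) = #A := by
      exact_mod_cast card_memberSubfamily_add_card_nonMemberSubfamily a A
    obtain ⟨ρ, σ, b1, b2, b3, b4, b5, b6⟩ := bin (#(A.memberSubfamily a))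
      (#(A.nonMemberSubfamily a)) (by positivity) (by positivity)
    have hne : ∀ e ∈ E, e ≠ a := fun e he h => ha (h ▸ he)
    refine ⟨fun x e => if e = a then (if a ∈ x then ρ else σ) else
      (if a ∈ x then r1 (x.erase a) e else r0 x e), ?_, ?_, ?_⟩
    · intro x e
      simp only
      split_ifs
      exacts [⟨b1, b2⟩, ⟨b3, b4⟩, p1 _ _, p0 _ _]
    · intro G hG
      have u1 := q1 G hG
      have u2 := q1 (fun z => G (insert a z)) (fun z => hG _)
      have u3 := q0 G hG
      have u4 := q0 (fun z => G (insert a z)) (fun z => hG _)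
      have t0 : 0 < (∑ z ∈ E.powerset, G z) / 2 ^ #E :=
        div_pos (sum_pos (fun z _ => hG z) ⟨∅, by simp⟩) (by positivity)
      have t1 : 0 < (∑ z ∈ E.powerset, G (insert a z)) / 2 ^ #E :=
        div_pos (sum_pos (fun z _ => hG _) ⟨∅, by simp⟩) (by positivity)
      have g1 := gibbs (#(A.memberSubfamily a)) (#(A.nonMemberSubfamily a)) _ _
        (by positivity) (by positivity) t0 t1
      have g2 := gibbs 1 1 _ _ zero_le_one zero_le_one t0 t1
      have e0 : (∑ z ∈ (insert a E).powerset, G z) / 2 ^ #(insert a E) =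
          ((∑ z ∈ E.powerset, G z) / 2 ^ #E + (∑ z ∈ E.powerset, G (insert a z)) / 2 ^ #E) / 2 := by
        rw [sum_powerset_insert ha, card_insert_of_notMem ha, pow_succ]
        field_simp
      rw [e0, sum_split a A, card_insert_of_notMem ha]
      rw [sum_congr rfl (g := fun y => ε * ρ * (∑ z ∈ E.powerset,
          (∏ e ∈ E, (if (e ∈ y ↔ e ∈ z) then 1 - ε * r1 y e else ε * r1 y e)) * Real.log (G z)) +
          (1 - ε * ρ) * (∑ z ∈ E.powerset,
          (∏ e ∈ E, (if (e ∈ y ↔ e ∈ z) then 1 - ε * r1 y e else ε * r1 y e)) *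
            Real.log (G (insert a z)))),
        sum_congr rfl (s₂ := A.nonMemberSubfamily a) (g := fun y => (1 - ε * σ) * (∑ z ∈ E.powerset,
          (∏ e ∈ E, (if (e ∈ y ↔ e ∈ z) then 1 - ε * r0 y e else ε * r0 y e)) * Real.log (G z)) +
          ε * σ * (∑ z ∈ E.powerset,
          (∏ e ∈ E, (if (e ∈ y ↔ e ∈ z) then 1 - ε * r0 y e else ε * r0 y e)) *
            Real.log (G (insert a z)))),
        sum_add_distrib, sum_add_distrib, ← mul_sum, ← mul_sum, ← mul_sum, ← mul_sum, ← hc]
      · have c1 : 0 ≤ ε * ρ := mul_nonneg h0 b1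
        have c2 : 0 ≤ 1 - ε * ρ := by nlinarith
        have c3 : 0 ≤ ε * σ := mul_nonneg h0 b3
        have c4 : 0 ≤ 1 - ε * σ := by nlinarith
        have v1 := mul_le_mul_of_nonneg_left u1 c1
        have v2 := mul_le_mul_of_nonneg_left u2 c2
        have v3 := mul_le_mul_of_nonneg_left u3 c4
        have v4 := mul_le_mul_of_nonneg_left u4 c3
        have w1 := mul_le_mul_of_nonneg_left g1 (sub_nonneg.2 h1)
        have w2 := mul_le_mul_of_nonneg_left g2 (show 0 ≤ ε * ((#(A.memberSubfamily a) : ℝ) +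
          #(A.nonMemberSubfamily a)) / 2 by positivity)
        norm_num at w2
        push_cast
        generalize Real.log ((∑ z ∈ E.powerset, G z) / 2 ^ #E) = L0 at *
        generalize Real.log ((∑ z ∈ E.powerset, G (insert a z)) / 2 ^ #E) = L1 at *
        generalize (#(A.memberSubfamily a) : ℝ) = n1 at *
        generalize (#(A.nonMemberSubfamily a) : ℝ) = n0 at *
        have w3 : ε * (L0 - L1) * (n1 * ρ - n0 * σ) = ε * (L0 - L1) * ((n1 - n0) / 2) := by rw [b5]
        linarith
      · intro y hy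
        have h2 := (mem_nonMemberSubfamily.1 hy).2
        rw [sum_powerset_insert ha, mul_sum, mul_sum]
        congr 1
        · refine sum_congr rfl fun z hz => ?_
          have h3 : a ∉ z := fun h => ha (mem_powerset.1 hz h)
          rw [prod_insert ha, mul_assoc]
          congr 2
          · simp [h2, h3]
          · exact prod_congr rfl fun e he => by simp [h2, hne e he]
        · refine sum_congr rfl fun z hz => ?_
          rw [prod_insert ha, mul_assoc]
          congr 2
          · simp [h2]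
          · exact prod_congr rfl fun e he => by simp [h2, hne e he]
      · intro y hy
        have h2 := (mem_memberSubfamily.1 hy).2
        rw [sum_powerset_insert ha, mul_sum, mul_sum]
        congr 1
        · refine sum_congr rfl fun z hz => ?_
          have h3 : a ∉ z := fun h => ha (mem_powerset.1 hz h)
          rw [prod_insert ha, mul_assoc]
          congr 2
          · simp [h3]
          · exact prod_congr rfl fun e he => by simp [hne e he, erase_insert h2]
        · refine sum_congr rfl fun z hz => ?_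
          rw [prod_insert ha, mul_assoc]
          congr 2
          · simp
          · exact prod_congr rfl fun e he => by simp [hne e he, erase_insert h2]
    · rw [sum_split a A, card_insert_of_notMem ha]
      rw [sum_congr rfl (g := fun y => ρ ^ 2 + ∑ e ∈ E, r1 y e ^ 2),
        sum_congr rfl (s₂ := A.nonMemberSubfamily a) (g := fun y => σ ^ 2 + ∑ e ∈ E, r0 y e ^ 2),
        sum_add_distrib, sum_add_distrib, sum_const, sum_const, nsmul_eq_mul, nsmul_eq_mul, ← hc]
      · push_cast
        linarith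
      · intro y hy
        have h2 := (mem_nonMemberSubfamily.1 hy).2
        rw [sum_insert ha]
        congr 1
        · simp [h2]
        · exact sum_congr rfl fun e he => by simp [h2, hne e he]
      · intro y hy
        have h2 := (mem_memberSubfamily.1 hy).2
        rw [sum_insert ha]
        congr 1
        · simp
        · exact sum_congr rfl fun e he => by simp [hne e he, erase_insert h2]

theorem gain (E : Finset α) (A : Finset (Finset α)) (hA : ∀ x ∈ A, x ⊆ E)
    (bad : Finset α → Prop) [DecidablePred bad]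
    (hbad : ∀ r : α → ℝ, (∀ e, 0 ≤ r e ∧ r e ≤ 1) → ∑ e ∈ E, r e ^ 2 ≤ 1 / 10 ^ 6 →
      ∑ d ∈ E.powerset, (if bad d then wt E r d else 0) ≤ 4 / 10 ^ 12)
    (hint : ∀ x ∈ A, ∀ y ∈ A, ∀ d, x ∩ y ⊆ d → bad d) :
    (#A : ℝ) ≤ (1 - 1 / 10 ^ 10) * (2 ^ #E / 2) := by
  classical
  by_contra hc
  rw [not_le] at hc
  have p : (0 : ℝ) < 2 ^ #E := by positivity
  have hA0 : (0 : ℝ) < #A := lt_trans (by positivity) hc
  obtain ⟨r, h1, h2, h3⟩ := transport2 (1 / 10 ^ 9) (by norm_num) (by norm_num) E A hA
  set U := E.powerset.filter (fun z => ∀ x ∈ A, bad (symmDiff x z)) with hU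
  have hUA : #A ≤ #U := by
    apply card_le_card_of_injOn (fun y => E \ y)
    · intro y hy
      refine mem_filter.2 ⟨mem_powerset.2 sdiff_subset, fun x hx => hint x hx y hy _ fun e he => ?_⟩
      rw [mem_inter] at he
      simp [mem_symmDiff, he.1, he.2]
    · intro x hx y hy e
      rw [← Finset.sdiff_sdiff_eq_self (hA x hx), ← Finset.sdiff_sdiff_eq_self (hA y hy)]
      exact congrArg _ e
  have h4 := h2 (fun z => if z ∈ U then Real.exp (-30) else 1) (fun z => by
    split_ifs <;> positivity)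
  have hr : ∀ x e, 0 ≤ 1 / 10 ^ 9 * r x e ∧ 1 / 10 ^ 9 * r x e ≤ 1 := fun x e => by
    have := h1 x e
    constructor <;> nlinarith
  have k1 : ∀ x ∈ A, -30 * (4 / 10 ^ 12 + (∑ e ∈ E, r x e ^ 2) / 10 ^ 12) ≤ ∑ z ∈ E.powerset,
      (∏ e ∈ E, (if (e ∈ x ↔ e ∈ z) then 1 - 1 / 10 ^ 9 * r x e else 1 / 10 ^ 9 * r x e)) *
        Real.log (if z ∈ U then Real.exp (-30) else 1) := by
    intro x hx
    have e2 : ∀ z, ∏ e ∈ E, (if (e ∈ x ↔ e ∈ z) then 1 - 1 / 10 ^ 9 * r x e else 1 / 10 ^ 9 * r x e)
        = wt E (fun e => 1 / 10 ^ 9 * r x e) (symmDiff x z) := by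
      intro z
      refine prod_congr rfl fun e _ => ?_
      by_cases c1 : e ∈ x <;> by_cases c2 : e ∈ z <;> simp [mem_symmDiff, c1, c2]
    simp only [e2, apply_ite Real.log, Real.log_exp, Real.log_one, mul_ite, mul_zero]
    rw [← sum_filter, filter_mem_eq_inter, inter_eq_right.2 (filter_subset _ _), ← sum_mul]
    have e1 : ∑ z ∈ U, wt E (fun e => 1 / 10 ^ 9 * r x e) (symmDiff x z)
        ≤ ∑ d ∈ E.powerset, (if bad d then wt E (fun e => 1 / 10 ^ 9 * r x e) d else 0) := by
      rw [← sum_filter, ← sum_image (g := fun z => symmDiff x z)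
        (f := wt E (fun e => 1 / 10 ^ 9 * r x e)) (fun z _ z' _ h => symmDiff_right_injective x h)]
      apply sum_le_sum_of_subset_of_nonneg
      · intro d hd
        obtain ⟨z, hz, rfl⟩ := mem_image.1 hd
        obtain ⟨z1, z2⟩ := mem_filter.1 hz
        refine mem_filter.2 ⟨mem_powerset.2 ?_, z2 x hx⟩
        exact symmDiff_le_sup.trans (sup_le (hA x hx) (mem_powerset.1 z1))
      · intro d _ _
        exact wt_nonneg E _ (hr x) d
    have e3 : 0 ≤ (∑ e ∈ E, r x e ^ 2) / 10 ^ 12 := by positivity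
    rcases le_total (∑ e ∈ E, r x e ^ 2) (10 ^ 12) with c | c
    · have := hbad _ (hr x) (by
        simp only [mul_pow]
        rw [← mul_sum]
        norm_num at c ⊢
        linarith)
      linarith
    · have e4 : ∑ d ∈ E.powerset, (if bad d then wt E (fun e => 1 / 10 ^ 9 * r x e) d else 0)
          ≤ 1 := by
        have := wt_sup E (fun e => 1 / 10 ^ 9 * r x e) ∅ (empty_subset _)
        rw [prod_empty] at this
        refine le_trans (sum_le_sum fun d _ => ?_) this.le
        have := wt_nonneg E _ (hr x) d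
        split_ifs with c1 c2 c3
        · exact le_rfl
        · exact absurd (empty_subset d) c2
        · exact this
        · exact le_rfl
      have := (one_le_div (show (0 : ℝ) < 10 ^ 12 by positivity)).2 c
      linarith
  have k2 := (sum_le_sum k1).trans h4
  rw [← mul_sum, sum_add_distrib, sum_const, ← sum_div, nsmul_eq_mul] at k2
  have x1 : Real.exp (-30) ≤ 1 / 10 ^ 11 := by
    rw [Real.exp_neg, one_div]
    apply inv_anti₀ (by positivity)
    have := Real.exp_one_gt_d9
    rw [show (30 : ℝ) = (30 : ℕ) * 1 by norm_num, Real.exp_nat_mul]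
    exact le_trans (by norm_num) (pow_le_pow_left₀ (by norm_num) this.le 30)
  have x0 := Real.exp_pos (-30)
  have k3 : (∑ z ∈ E.powerset, if z ∈ U then Real.exp (-30) else 1) / 2 ^ #E
      ≤ (1 + 12 / 10 ^ 11) / 2 := by
    have e1 : ∀ z, (if z ∈ U then Real.exp (-30) else (1 : ℝ)) ≤
        1 + 1 / 10 ^ 11 - if z ∈ U then 1 else 0 := fun z => by split_ifs <;> linarith
    have e2 := sum_le_sum (s := E.powerset) fun z _ => e1 z
    rw [sum_sub_distrib, sum_const, ← sum_filter, filter_mem_eq_inter,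
      inter_eq_right.2 (filter_subset _ _), sum_const, card_powerset, nsmul_eq_mul,
      nsmul_eq_mul] at e2
    have e3 : (#A : ℝ) ≤ #U := by exact_mod_cast hUA
    push_cast at e2
    rw [div_le_iff₀ p]
    linarith
  have k4 : Real.log ((∑ z ∈ E.powerset, if z ∈ U then Real.exp (-30) else 1) / 2 ^ #E)
      ≤ 12 / 10 ^ 11 - Real.log 2 := by
    refine (Real.log_le_log (div_pos (sum_pos (fun z _ => by split_ifs <;> positivity)
      ⟨∅, by simp⟩) p) k3).trans ?_
    rw [Real.log_div (by norm_num) (by norm_num)]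
    have := Real.log_le_sub_one_of_pos (show (0 : ℝ) < 1 + 12 / 10 ^ 11 by norm_num)
    linarith
  have k5 : #E * Real.log 2 - Real.log #A ≤ Real.log 2 + 2 / 10 ^ 10 := by
    have e1 := Real.log_le_log (by positivity) hc.le
    rw [Real.log_mul (by norm_num) (by positivity), Real.log_div p.ne' (by norm_num),
      Real.log_pow] at e1
    have e2 := Real.one_sub_inv_le_log_of_pos (show (0 : ℝ) < 1 - 1 / 10 ^ 10 by norm_num)
    norm_num at e1 e2 ⊢
    linarith
  have l1 := Real.log_two_gt_d9
  have l2 := Real.log_two_lt_d9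
  have m1 := mul_le_mul_of_nonneg_left k4 hA0.le
  have m2 := mul_le_mul_of_nonneg_left k5 hA0.le
  have m3 := mul_lt_mul_of_pos_left l1 hA0
  have m4 := mul_lt_mul_of_pos_left l2 hA0
  norm_num at *
  linarith

end Pool.Agent.H.MP_d900bd_co
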