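import Pool.Agent.H.MP_d900bd_co.A

namespace Pool.Agent.H.MP_d900bd_co

open Finset Pool.Agent.H.MP_e5ff55_co

variable {t : ℕ} {V : Type} [Fintype V] [DecidableEq V]

omit [DecidableEq V] in
theorem hom_le2 (v0 : V) (J : Finset (Fin t × Fin t)) (hJ : Core J) (l : V → V → ℝ) (β : ℝ)
    (h0 : ∀ u v, 0 ≤ l u v) (hβ : 0 ≤ β) (h2 : ∑ u, ∑ v, l u v ^ 2 ≤ β ^ 2) :
    ∑ a ∈ Fintype.piFinset (TA v0 J), ∑ b ∈ Fintype.piFinset (TB v0 J),
      ∏ p ∈ J, l (a p.1) (b p.2) ≤ β ^ #J := by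
  have hr : ∀ i, (∃ j, (i, j) ∈ J) → ∃ j k, k ≠ j ∧ (i, j) ∈ J ∧ (i, k) ∈ J := by
    rintro i ⟨j, hj⟩
    obtain ⟨⟨i', k⟩, hq, hne, rfl⟩ := hJ.1 _ hj
    exact ⟨j, k, fun h => hne (by rw [h]), hj, hq⟩
  have hcol : ∀ j, (∃ i, (i, j) ∈ J) → ∃ i k, k ≠ i ∧ (i, j) ∈ J ∧ (k, j) ∈ J := by
    rintro j ⟨i, hi⟩
    obtain ⟨⟨k, j'⟩, hq, hne, rfl⟩ := hJ.2 _ hi
    exact ⟨i, k, fun h => hne (by rw [h]), hi, hq⟩
  set s : V → ℝ := fun u => √(∑ v, l u v ^ 2) with hs
  have s0 : ∀ u, 0 ≤ s u := fun u => Real.sqrt_nonneg _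
  have s1 : ∀ u v, l u v ≤ s u := fun u v =>
    Real.le_sqrt_of_sq_le (single_le_sum (f := fun v => l u v ^ 2) (fun _ _ => sq_nonneg _)
      (mem_univ v))
  have s2 : ∀ u, s u ≤ β := fun u => by
    rw [hs]
    apply Real.sqrt_le_iff.2 ⟨by linarith, le_trans ?_ h2⟩
    exact single_le_sum (f := fun u => ∑ v, l u v ^ 2)
      (fun _ _ => sum_nonneg fun _ _ => sq_nonneg _) (mem_univ u)
  have s3 : ∑ u, s u * s u ≤ β * β := by
    rw [← sq]
    refine le_trans (le_of_eq (sum_congr rfl fun u _ => ?_)) h2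
    exact Real.mul_self_sqrt (sum_nonneg fun _ _ => sq_nonneg _)
  set g : Fin t → Fin t → V → ℝ := fun i j u => if (i, j) ∈ J then s u else 1 with hg
  set c : Fin t → Fin t → ℝ := fun i j => if (i, j) ∈ J then β else 1 with hc'
  have g0 : ∀ i j u, 0 ≤ g i j u := fun i j u => by
    simp only [hg]; split_ifs
    exacts [s0 u, zero_le_one]
  have c0 : ∀ i j, 0 ≤ c i j := fun i j => by
    simp only [hc']; split_ifs
    exacts [hβ, zero_le_one]
  have e1 : ∀ a : Fin t → V, ∑ b ∈ Fintype.piFinset (TB v0 J), ∏ p ∈ J, l (a p.1) (b p.2)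
      ≤ ∏ i, ∏ j, g i j (a i) := by
    intro a
    have e2 : ∀ b : Fin t → V, ∏ p ∈ J, l (a p.1) (b p.2)
        = ∏ j, ∏ i, if (i, j) ∈ J then l (a i) (b j) else 1 := by
      intro b
      rw [prod_comm, ← Fintype.prod_prod_type' (fun i j => if (i, j) ∈ J then l (a i) (b j) else 1),
        ← prod_filter]
      simp
    simp only [e2]
    rw [← prod_univ_sum (TB v0 J) (fun j v => ∏ i, if (i, j) ∈ J then l (a i) v else 1),
      prod_comm]
    apply prod_le_prod
    · intro j _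
      exact sum_nonneg fun v _ => prod_nonneg fun i _ => by
        split_ifs
        exacts [h0 _ _, zero_le_one]
    · intro j _
      unfold TB
      split_ifs with hj
      · obtain ⟨i, k, a1, a2, a3⟩ := hcol j hj
        apply two (fun i v => if (i, j) ∈ J then l (a i) v else 1) (fun i => g i j (a i)) i k a1
          (fun _ => g0 _ _ _)
        · intro k v
          split_ifs
          exacts [h0 _ _, zero_le_one]
        · intro k v
          simp only [hg]
          split_ifs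
          exacts [s1 _ _, le_rfl]
        · simp only [hg, a2, a3, if_true, hs]
          exact Real.sum_mul_le_sqrt_mul_sqrt _ _ _
      · push Not at hj
        simp [hg, hj]
  refine (sum_le_sum fun a _ => e1 a).trans ?_
  rw [← prod_univ_sum (TA v0 J) (fun i u => ∏ j, g i j u)]
  have e3 : ∏ i, ∑ u ∈ TA v0 J i, ∏ j, g i j u ≤ ∏ i, ∏ j, c i j := by
    apply prod_le_prod
    · intro i _
      exact sum_nonneg fun v _ => prod_nonneg fun j _ => g0 _ _ _
    · intro i _
      unfold TA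
      split_ifs with hi
      · obtain ⟨j, k, a1, a2, a3⟩ := hr i hi
        apply two (fun j u => g i j u) (fun j => c i j) j k a1 (fun _ => c0 _ _)
          (fun _ _ => g0 _ _ _)
        · intro k v
          simp only [hg, hc']
          split_ifs
          exacts [s2 _, le_rfl]
        · simp only [hg, hc', a2, a3, if_true]
          exact s3
      · push Not at hi
        simp [hg, hc', hi]
  refine e3.trans (le_of_eq ?_)
  rw [← Fintype.prod_prod_type' c]
  simp only [hc', Prod.mk.eta]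
  rw [← prod_filter, prod_const]
  simp

theorem core_four (J : Finset (Fin t × Fin t)) (hJ : Core J) (hne : J.Nonempty) : 4 ≤ #J := by
  obtain ⟨p, hp⟩ := hne
  obtain ⟨q, hq, q1, q2⟩ := hJ.1 p hp
  obtain ⟨r, hr, r1, r2⟩ := hJ.2 p hp
  obtain ⟨s, hs, s1, s2⟩ := hJ.2 q hq
  have a1 : q.2 ≠ p.2 := fun h => q1 (Prod.ext q2 h)
  have : #({p, q, r, s} : Finset _) = 4 := by
    rw [card_insert_of_notMem, card_insert_of_notMem, card_pair]
    · rintro rfl; exact a1 (s2.symm.trans r2)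
    · simp only [mem_insert, mem_singleton, not_or]
      exact ⟨by rintro rfl; exact a1 r2, s1.symm⟩
    · simp only [mem_insert, mem_singleton, not_or]
      exact ⟨q1.symm, r1.symm, by rintro rfl; exact a1 s2.symm⟩
  rw [← this]
  apply card_le_card
  intro z hz
  simp only [mem_insert, mem_singleton] at hz
  rcases hz with rfl | rfl | rfl | rfl <;> assumption

def Bad2 (J : Finset (Fin t × Fin t)) (d : Finset (Sym2 V)) : Prop :=
  ∃ a b : Fin t → V, Set.InjOn (fun p : Fin t × Fin t => s(a p.1, b p.2)) J ∧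
    ∀ p ∈ J, s(a p.1, b p.2) ∈ d

open Classical in
theorem bad2_le (J : Finset (Fin t × Fin t)) (hJ : Core J) (hne : J.Nonempty)
    (E : Finset (Sym2 V)) (r : Sym2 V → ℝ)
    (hr : ∀ e, 0 ≤ r e ∧ r e ≤ 1) (hB : ∑ e ∈ E, r e ^ 2 ≤ 1 / 10 ^ 6) :
    ∑ d ∈ E.powerset, (if Bad2 J d then wt E r d else 0) ≤ 4 / 10 ^ 12 := by
  rcases isEmpty_or_nonempty V with hV | ⟨⟨v0⟩⟩
  · rw [sum_eq_zero]
    · norm_num
    · intro d _
      rw [if_neg]
      rintro ⟨a, _⟩
      exact hV.elim (a hne.choose.1)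
  set l : V → V → ℝ := fun u v => if s(u, v) ∈ E then r s(u, v) else 0 with hl
  have l0 : ∀ u v, 0 ≤ l u v := fun u v => by
    simp only [hl]; split_ifs
    exacts [(hr _).1, le_rfl]
  have l2 : ∑ u, ∑ v, l u v ^ 2 ≤ √(2 / 10 ^ 6) ^ 2 := by
    have h1 := sum_pairs (fun e => if e ∈ E then r e ^ 2 else 0)
      (fun e => by split_ifs <;> positivity)
    rw [← sum_filter, filter_mem_eq_inter, univ_inter] at h1
    have h2 : ∑ u, ∑ v, l u v ^ 2 = ∑ u, ∑ v, if s(u, v) ∈ E then r s(u, v) ^ 2 else 0 := by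
      refine sum_congr rfl fun u _ => sum_congr rfl fun v _ => ?_
      simp only [hl]
      split_ifs <;> simp
    rw [Real.sq_sqrt (by norm_num)]
    linarith
  set C : (Fin t → V) → (Fin t → V) → Prop := fun a b =>
    Set.InjOn (fun p : Fin t × Fin t => s(a p.1, b p.2)) J ∧ ∀ p ∈ J, s(a p.1, b p.2) ∈ E with hC
  have k1 : ∀ d ∈ E.powerset, (if Bad2 J d then wt E r d else 0) ≤
      ∑ a ∈ Fintype.piFinset (TA v0 J), ∑ b ∈ Fintype.piFinset (TB v0 J),
        if C a b then (if J.image (fun p => s(a p.1, b p.2)) ⊆ d then wt E r d else 0) else 0 := by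
    intro d hd
    have w0 := wt_nonneg E r hr d
    have n0 : ∀ a b, (0 : ℝ) ≤
        if C a b then (if J.image (fun p => s(a p.1, b p.2)) ⊆ d then wt E r d else 0) else 0 := by
      intro a b
      split_ifs
      exacts [w0, le_rfl, le_rfl]
    split_ifs with hb
    · obtain ⟨a, b, hinj, hJ2⟩ := hb
      set a' : Fin t → V := fun i => if ∃ j, (i, j) ∈ J then a i else v0 with ha'
      set b' : Fin t → V := fun j => if ∃ i, (i, j) ∈ J then b j else v0 with hb'
      have ma : a' ∈ Fintype.piFinset (TA v0 J) := Fintype.mem_piFinset.2 fun i => by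
        simp only [ha', TA]; split_ifs <;> simp
      have mb : b' ∈ Fintype.piFinset (TB v0 J) := Fintype.mem_piFinset.2 fun i => by
        simp only [hb', TB]; split_ifs <;> simp
      have ee : ∀ p ∈ J, s(a' p.1, b' p.2) = s(a p.1, b p.2) := fun p hp => by
        simp only [ha', hb']
        rw [if_pos ⟨p.2, hp⟩, if_pos ⟨p.1, hp⟩]
      have c3 : C a' b' := by
        refine ⟨fun p hp q hq e => hinj hp hq ?_, fun p hp => ?_⟩
        · simp only at e ⊢
          rw [← ee p hp, ← ee q hq, e]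
        · rw [ee p hp]
          exact mem_powerset.1 hd (hJ2 p hp)
      have c4 : J.image (fun p => s(a' p.1, b' p.2)) ⊆ d := by
        rw [image_subset_iff]
        intro p hp
        rw [ee p hp]
        exact hJ2 p hp
      refine le_trans ?_ (single_le_sum (fun a _ => sum_nonneg fun b _ => n0 a b) ma)
      refine le_trans ?_ (single_le_sum (fun b _ => n0 a' b) mb)
      rw [if_pos c3, if_pos c4]
    · exact sum_nonneg fun a _ => sum_nonneg fun b _ => n0 a b
  refine (sum_le_sum k1).trans ?_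
  have h1 := hom_le2 v0 J hJ l _ l0 (Real.sqrt_nonneg _) l2
  have h2 : √(2 / 10 ^ 6) ^ #J ≤ 4 / 10 ^ 12 := by
    refine (pow_le_pow_of_le_one (Real.sqrt_nonneg _) (Real.sqrt_le_one.2 (by norm_num))
      (core_four J hJ hne)).trans (le_of_eq ?_)
    rw [show 4 = 2 * 2 from rfl, pow_mul, Real.sq_sqrt (by norm_num)]
    norm_num
  refine le_trans ?_ (h1.trans h2)
  rw [sum_comm]
  refine sum_le_sum fun a _ => ?_
  rw [sum_comm]
  refine sum_le_sum fun b _ => ?_
  by_cases hc : C a b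
  · simp only [if_pos hc]
    rw [wt_sup E r _ (image_subset_iff.2 fun p hp => hc.2 p hp), prod_image hc.1]
    exact le_of_eq (prod_congr rfl fun p hp => by simp only [hl]; rw [if_pos (hc.2 p hp)])
  · simp only [if_neg hc, sum_const_zero]
    exact prod_nonneg fun p _ => l0 _ _

theorem pattern (H : SimpleGraph (Fin t)) (hH : ¬ H.IsAcyclic) (C : H.Coloring (Fin 2)) :
    ∃ J : Finset (Fin t × Fin t), Core J ∧ J.Nonempty ∧
      ∀ p ∈ J, H.Adj p.1 p.2 ∧ C p.1 = 0 ∧ C p.2 = 1 := by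
  classical
  unfold SimpleGraph.IsAcyclic at hH
  push Not at hH
  obtain ⟨v, c, hc⟩ := hH
  have two : ∀ u w, c.toSubgraph.Adj u w → ∃ w', w' ≠ w ∧ c.toSubgraph.Adj u w' := by
    intro u w h
    have h1 := hc.ncard_neighborSet_toSubgraph_eq_two
      ((SimpleGraph.Walk.mem_verts_toSubgraph c).1 (c.toSubgraph.edge_vert h))
    obtain ⟨w', h2, h3⟩ := Set.exists_ne_of_one_lt_ncard (lt_of_lt_of_eq (by norm_num) h1.symm) w
    exact ⟨w', h3, h2⟩
  have f0 : ∀ x y : Fin 2, x ≠ y → x = 0 → y = 1 := by decide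
  have f1 : ∀ x y : Fin 2, x ≠ y → x = 1 → y = 0 := by decide
  have f2 : ∀ x : Fin 2, x = 0 ∨ x = 1 := by decide
  refine ⟨univ.filter (fun p => c.toSubgraph.Adj p.1 p.2 ∧ C p.1 = 0 ∧ C p.2 = 1),
    ⟨fun p hp => ?_, fun p hp => ?_⟩, ?_, fun p hp => ?_⟩
  · obtain ⟨h1, h2, _⟩ := (mem_filter.1 hp).2
    obtain ⟨w, h4, h5⟩ := two _ _ h1
    exact ⟨(p.1, w), mem_filter.2 ⟨mem_univ _, h5, h2, f0 _ _ (C.valid h5.adj_sub) h2⟩,
      fun h => h4 (congrArg Prod.snd h), rfl⟩
  · obtain ⟨h1, _, h3⟩ := (mem_filter.1 hp).2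
    obtain ⟨w, h4, h5⟩ := two _ _ h1.symm
    exact ⟨(w, p.2), mem_filter.2 ⟨mem_univ _, h5.symm, f1 _ _ (C.valid h5.adj_sub) h3, h3⟩,
      fun h => h4 (congrArg Prod.fst h), rfl⟩
  · have h1 := hc.ncard_neighborSet_toSubgraph_eq_two c.start_mem_support
    obtain ⟨w, h2, _⟩ := Set.exists_ne_of_one_lt_ncard (lt_of_lt_of_eq (by norm_num) h1.symm) v
    have h5 : c.toSubgraph.Adj v w := h2
    rcases f2 (C v) with h | h
    · exact ⟨(v, w), mem_filter.2 ⟨mem_univ _, h5, h, f0 _ _ (C.valid h5.adj_sub) h⟩⟩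
    · exact ⟨(w, v), mem_filter.2 ⟨mem_univ _, h5.symm, f1 _ _ (C.valid h5.adj_sub) h, h⟩⟩
  · obtain ⟨h1, h2, h3⟩ := (mem_filter.1 hp).2
    exact ⟨h1.adj_sub, h2, h3⟩

theorem main (H : SimpleGraph (Fin t)) (hH : ¬ H.IsAcyclic) (n : ℕ)
    (F : Finset (SimpleGraph (Fin n))) (h : ∀ G₁ ∈ F, ∀ G₂ ∈ F, H.IsContained (G₁ ⊓ G₂)) :
    (F.card : ℝ) ≤ (1 - 1 / 10 ^ 10) * (2 ^ (n.choose 2) / 2) := by
  classical
  set E := (⊤ : SimpleGraph (Fin n)).edgeFinset with hE'
  have hE : ∀ e ∈ E, ¬ e.IsDiag := fun e he =>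
    SimpleGraph.not_isDiag_of_mem_edgeSet _ (SimpleGraph.mem_edgeFinset.1 he)
  have hc : #E = n.choose 2 := by
    rw [hE', SimpleGraph.card_edgeFinset_top_eq_card_choose_two, Fintype.card_fin]
  set A := F.image (fun G => G.edgeSet.toFinset) with hA'
  have hcard : #A = #F := card_image_of_injective _ (fun G H e => by
    simpa using e)
  have hA : ∀ x ∈ A, x ⊆ E := by
    intro x hx
    obtain ⟨G, _, rfl⟩ := mem_image.1 hx
    intro e he
    rw [Set.mem_toFinset] at he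
    exact SimpleGraph.mem_edgeFinset.2 (SimpleGraph.edgeSet_mono le_top he)
  rw [← hc, ← hcard]
  by_cases hb : H.Colorable 2
  · obtain ⟨J, j1, j2, j3⟩ := pattern H hH hb.some
    apply gain E A hA (Bad2 J) (fun r h1 h2 => bad2_le J j1 j2 E r h1 h2)
    intro x hx y hy d hd
    obtain ⟨G, hG, rfl⟩ := mem_image.1 hx
    obtain ⟨G', hG', rfl⟩ := mem_image.1 hy
    obtain ⟨f⟩ := h G hG G' hG'
    refine ⟨f, f, ?_, fun p hp => hd ?_⟩
    · intro p hp q hq e
      simp only [Sym2.eq_iff] at e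
      rcases e with ⟨e1, e2⟩ | ⟨e1, _⟩
      · exact Prod.ext (f.injective e1) (f.injective e2)
      · have := (j3 p hp).2.1
        rw [f.injective e1, (j3 q hq).2.2] at this
        exact absurd this (by decide)
    · have := f.toHom.map_adj (j3 p hp).1
      rw [SimpleGraph.inf_adj] at this
      simp only [mem_inter, Set.mem_toFinset, SimpleGraph.mem_edgeSet]
      exact this
  · have h1 := Pool.Agent.H.MP_248d64_co.base 2 E hE A A hA hA (by
      intro x hx y hy
      obtain ⟨G, hG, rfl⟩ := mem_image.1 hx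
      obtain ⟨G', hG', rfl⟩ := mem_image.1 hy
      have h1 := Pool.Agent.H.MP_248d64_co.chi_col (G.edgeSet.toFinset ∩ G'.edgeSet.toFinset)
      have h2 : SimpleGraph.fromEdgeSet ((G.edgeSet.toFinset ∩ G'.edgeSet.toFinset : Finset _) :
          Set (Sym2 (Fin n))) = G ⊓ G' := by
        rw [coe_inter, Set.coe_toFinset, Set.coe_toFinset, ← SimpleGraph.edgeSet_inf,
          SimpleGraph.fromEdgeSet_edgeSet]
      rw [h2] at h1
      obtain ⟨f⟩ := h G hG G' hG'
      by_contra hlt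
      exact hb ((SimpleGraph.Colorable.of_hom f.toHom h1).mono (not_lt.1 hlt)))
    have h5 : (4 : ℝ) ^ #E = 2 ^ #E * 2 ^ #E := by rw [← mul_pow]; norm_num
    have p : (0 : ℝ) < 2 ^ #E := by positivity
    have : (#A : ℝ) ≤ 2 ^ #E / 4 := by
      apply le_of_sq_le_sq _ (by positivity)
      rw [h5] at h1
      nlinarith
    linarith

end Pool.Agent.H.MP_d900bd_co
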